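import Pool.Agent.H50En.Defs

set_option autoImplicit false

/-!
Package H: the Einstein vector of the metric `1` on `K` (helper71).
-/

namespace Pool.Agent.H71En

open Real Finset Pool.Agent.H50En

variable {V : Type} [DecidableEq V]

/-- The statement of package D. -/
def PyramidStatement (V : Type) [DecidableEq V] : Prop :=
  ∀ {z : Sym2 V → ℝ} {s : Finset V} {a : V} (_ : a ∈ s) {m : ℕ} (_ : #s = m + 1)
    (_ : 1 ≤ m) {t : ℝ} (_ : 0 < 1 / 2 + m * (t - 1 / 2))
    (_ : ∀ x ∈ s, ∀ y ∈ s, x ≠ a → y ≠ a → x ≠ y → z s(x, y) = 1)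
    (_ : ∀ x ∈ s, x ≠ a → z s(a, x) = t),
    |(CM z s).det| = 1 + 2 * m * (t - 1 / 2) ∧
    Q z s a a = - m / (2 * (1 / 2 + m * (t - 1 / 2))) ∧
    (∀ x ∈ s, x ≠ a → Q z s a x = 1 / (2 * (1 / 2 + m * (t - 1 / 2)))) ∧
    (∀ x ∈ s, x ≠ a → Q z s x x = - (1 / 2 + (m - 1) * (t - 1 / 2)) / (1 / 2 + m * (t - 1 / 2))) ∧
    (∀ x ∈ s, ∀ y ∈ s, x ≠ a → y ≠ a → x ≠ y →
      Q z s x y = (t - 1 / 2) / (1 / 2 + m * (t - 1 / 2)))

theorem regular (pyr : PyramidStatement V) {s : Finset V} {m : ℕ} (hm : #s = m + 1)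
    (hm1 : 1 ≤ m) {x : V} (hx : x ∈ s) :
    |(CM (fun _ => (1 : ℝ)) s).det| = m + 1 ∧
    Q (fun _ => (1 : ℝ)) s x x = - m / (m + 1) ∧
    ∀ y ∈ s, y ≠ x → Q (fun _ => (1 : ℝ)) s x y = 1 / (m + 1) := by
  have hm0 : (0 : ℝ) ≤ m := Nat.cast_nonneg m
  have h := pyr (z := fun _ => (1 : ℝ)) hx hm hm1 (t := 1) (by nlinarith)
    (fun _ _ _ _ _ _ _ => rfl) (fun _ _ _ => rfl)
  obtain ⟨h1, h2, h3, -, -⟩ := h
  refine ⟨?_, ?_, ?_⟩
  · rw [h1]; ring
  · rw [h2]; congr 1; ring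
  · intro y hy hyx
    rw [h3 y hy hyx]; congr 1; ring

theorem sum_pairs {T : Finset V} {n : ℕ} (hT : #T = n + 1) (hn : 1 ≤ n) {x y : V} (hxy : x ≠ y)
    (a : ℝ) :
    ∑ k ∈ T, ∑ l ∈ T, (if k ≠ l ∧ (x ∈ (T.erase k).erase l ∧ y ∈ (T.erase k).erase l)
      then a else 0) = if {x, y} ⊆ T then (n - 1 : ℝ) * (n - 2) * a else 0 := by
  by_cases h : {x, y} ⊆ T
  · rw [if_pos h]
    have hx : x ∈ T := h (by simp)
    have hy : y ∈ T := h (by simp)
    set T' := (T.erase x).erase y with hT'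
    have hcard : #T' = n - 1 := by
      rw [hT', card_erase_of_mem (mem_erase.2 ⟨hxy.symm, hy⟩), card_erase_of_mem hx, hT]
      omega
    have hsub : T' ⊆ T := (erase_subset _ _).trans (erase_subset _ _)
    have h1 : ∀ k ∈ T, ∑ l ∈ T, (if k ≠ l ∧ (x ∈ (T.erase k).erase l ∧ y ∈ (T.erase k).erase l)
        then a else 0) = if k ∈ T' then ((n - 2 : ℝ)) * a else 0 := by
      intro k hk
      by_cases hkT : k ∈ T'
      · rw [if_pos hkT]
        have h2 : ∀ l ∈ T, (if k ≠ l ∧ (x ∈ (T.erase k).erase l ∧ y ∈ (T.erase k).erase l)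
            then a else 0) = if l ∈ T'.erase k then a else 0 := by
          intro l hl
          rw [hT', mem_erase, mem_erase] at hkT
          refine if_congr ?_ rfl rfl
          rw [hT']
          simp only [mem_erase]
          constructor
          · rintro ⟨h3, ⟨h4, h5, h6⟩, h7, h8, h9⟩
            exact ⟨Ne.symm h3, Ne.symm h7, Ne.symm h4, hl⟩
          · rintro ⟨h3, h4, h5, -⟩
            exact ⟨Ne.symm h3, ⟨Ne.symm h5, Ne.symm hkT.2.1, hx⟩, Ne.symm h4, Ne.symm hkT.1, hy⟩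
        rw [sum_congr rfl h2, sum_ite_mem,
          inter_eq_right.2 ((erase_subset _ _).trans hsub), sum_const,
          card_erase_of_mem hkT, hcard, nsmul_eq_mul]
        congr 1
        have hpos : 1 ≤ n - 1 := by
          rw [← hcard]
          exact card_pos.2 ⟨k, hkT⟩
        rw [Nat.cast_sub hpos, Nat.cast_sub hn]
        push_cast
        ring
      · rw [if_neg hkT]
        refine sum_eq_zero fun l hl => if_neg ?_
        rintro ⟨h3, h4, h5⟩
        apply hkT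
        rw [hT']
        simp only [mem_erase] at h4 h5 ⊢
        exact ⟨Ne.symm h5.2.1, Ne.symm h4.2.1, hk⟩
    rw [sum_congr rfl h1, sum_ite_mem, inter_eq_right.2 hsub, sum_const, hcard, nsmul_eq_mul,
      Nat.cast_sub hn]
    push_cast
    ring
  · rw [if_neg h]
    refine sum_eq_zero fun k _ => sum_eq_zero fun l _ => if_neg ?_
    rintro ⟨-, h4, h5⟩
    apply h
    simp only [mem_erase] at h4 h5
    intro w hw
    rw [mem_insert, mem_singleton] at hw
    rcases hw with rfl | rfl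
    · exact h4.2.2
    · exact h5.2.2

/-- Sum of the curvatures at the faces containing `x` and `y`, if all angles are equal. -/
theorem sum_curv {n : ℕ} (hn : 4 ≤ n) {K : Finset (Finset V)} (hK : Pure n K)
    {z : Sym2 V → ℝ} {θ : ℝ} (hθ : ∀ T ∈ K, ∀ k ∈ T, ∀ l ∈ T, k ≠ l → ang z T k l = θ)
    {x y : V} (hxy : x ≠ y) :
    ∑ σ ∈ (faces K (n - 1)).filter (fun σ => x ∈ σ ∧ y ∈ σ), curv K z σ =
      #((faces K (n - 1)).filter ({x, y} ⊆ ·)) -
        (n - 1).choose 2 * #(K.filter ({x, y} ⊆ ·)) * θ / (2 * π) := by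
  have hfil : (faces K (n - 1)).filter (fun σ => x ∈ σ ∧ y ∈ σ) =
      (faces K (n - 1)).filter ({x, y} ⊆ ·) := by
    refine filter_congr fun σ _ => ?_
    rw [insert_subset_iff, singleton_subset_iff]
  set Fil := (faces K (n - 1)).filter (fun σ => x ∈ σ ∧ y ∈ σ) with hFil
  have h1 : ∑ σ ∈ Fil, ∑ T ∈ K, ∑ k ∈ T, ∑ l ∈ T,
      (if k ≠ l ∧ (T.erase k).erase l = σ then ang z T k l / (4 * π) else 0) =
      ∑ T ∈ K, if {x, y} ⊆ T then (n - 1 : ℝ) * (n - 2) * (θ / (4 * π)) else 0 := by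
    rw [sum_comm]
    refine sum_congr rfl fun T hT => ?_
    rw [← sum_pairs (hK T hT) (by omega) hxy, sum_comm]
    refine sum_congr rfl fun k hk => ?_
    rw [sum_comm]
    refine sum_congr rfl fun l hl => ?_
    by_cases hkl : k = l
    · rw [if_neg fun h => h.1 hkl]
      exact sum_eq_zero fun σ _ => if_neg fun h => h.1 hkl
    · have h2 : ∀ σ ∈ Fil, (if k ≠ l ∧ (T.erase k).erase l = σ then ang z T k l / (4 * π) else 0)
          = if (T.erase k).erase l = σ then θ / (4 * π) else 0 := by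
        intro σ _
        rw [hθ T hT k hk l hl hkl]
        refine if_congr ?_ rfl rfl
        simp [hkl]
      rw [sum_congr rfl h2, sum_ite_eq]
      refine if_congr ?_ rfl rfl
      rw [hFil, mem_filter]
      constructor
      · rintro ⟨-, h3⟩
        exact ⟨hkl, h3⟩
      · rintro ⟨-, h3⟩
        refine ⟨?_, h3⟩
        rw [faces, mem_biUnion]
        refine ⟨T, hT, ?_⟩
        rw [mem_powersetCard]
        refine ⟨(erase_subset _ _).trans (erase_subset _ _), ?_⟩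
        rw [card_erase_of_mem (mem_erase.2 ⟨fun h => hkl h.symm, hl⟩), card_erase_of_mem hk,
          hK T hT]
        omega
  have h2 : ((n - 1).choose 2 : ℝ) = (n - 1 : ℝ) * (n - 2) / 2 := by
    rw [Nat.cast_choose_two, Nat.cast_sub (by omega)]
    push_cast
    ring
  unfold curv
  rw [sum_sub_distrib, sum_const, nsmul_eq_mul, mul_one, hfil, ← hfil, h1, ← sum_filter, sum_const,
    nsmul_eq_mul, h2]
  congr 1
  have hπ := Real.pi_ne_zero
  field_simp
  ring

/-- H: the metric `1` on `K` itself: the Einstein vector. -/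
theorem ein_one (pyr : PyramidStatement V) {n s d : ℕ} (hn : 4 ≤ n) {K : Finset (Finset V)}
    (hK : Pure n K) {x y : V} (hxy : x ≠ y)
    (hs : #((faces K (n - 1)).filter ({x, y} ⊆ ·)) = s) (hd : #(K.filter ({x, y} ⊆ ·)) = d) :
    ein n K (fun _ => 1) x y =
      √(1 / (2 ^ (n - 2) * ((n - 2).factorial : ℝ) ^ 2)) *
        ((s - (n - 1).choose 2 * d * arccos (1 / n) / (2 * π)) * √(n - 1 : ℝ) / (n - 1)) := by
  have hn1 : (0 : ℝ) < n - 1 := by
    have : (4 : ℝ) ≤ n := by exact_mod_cast hn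
    linarith
  have hang : ∀ T ∈ K, ∀ k ∈ T, ∀ l ∈ T, k ≠ l →
      ang (fun _ => (1 : ℝ)) T k l = arccos (1 / n) := by
    intro T hT k hk l hl hkl
    obtain ⟨-, h1, h2⟩ := regular pyr (hK T hT) (by omega) hk
    obtain ⟨-, h3, -⟩ := regular pyr (hK T hT) (by omega) hl
    unfold ang
    rw [h1, h3, h2 l hl (Ne.symm hkl)]
    congr 1
    have hn0 : (0 : ℝ) < n := by linarith
    rw [show (-(n : ℝ) / (n + 1) * (-n / (n + 1))) = (n / (n + 1)) ^ 2 by ring,
      Real.sqrt_sq (by positivity)]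
    field_simp
  have hterm : ∀ σ ∈ (faces K (n - 1)).filter (fun σ => x ∈ σ ∧ y ∈ σ),
      curv K (fun _ => (1 : ℝ)) σ * (vol (fun _ => (1 : ℝ)) σ * Q (fun _ => (1 : ℝ)) σ x y) =
      curv K (fun _ => (1 : ℝ)) σ *
        (√(1 / (2 ^ (n - 2) * ((n - 2).factorial : ℝ) ^ 2)) * (√(n - 1 : ℝ) / (n - 1))) := by
    intro σ hσ
    rw [mem_filter, faces, mem_biUnion] at hσ
    obtain ⟨⟨T, hT, hσT⟩, hx, hy⟩ := hσ
    rw [mem_powersetCard] at hσT
    have hcard : #σ = (n - 2) + 1 := by rw [hσT.2]; omega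
    obtain ⟨h1, -, h3⟩ := regular pyr hcard (by omega) hx
    have hcast : ((n - 2 : ℕ) : ℝ) + 1 = n - 1 := by
      rw [Nat.cast_sub (by omega)]
      push_cast
      ring
    rw [hcast] at h1 h3
    rw [h3 y hy hxy.symm, vol, h1, hσT.2, show n - 1 - 1 = n - 2 by omega,
      div_eq_mul_one_div (n - 1 : ℝ), mul_comm (n - 1 : ℝ), Real.sqrt_mul (by positivity)]
    ring
  unfold ein
  rw [sum_congr rfl hterm, ← sum_mul, sum_curv hn hK hang hxy, hs, hd]
  ring

end Pool.Agent.H71En
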